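import Pool.Agent.LRG.StmtsA

/-!
# Squad LRG, row SPL
-/

set_option autoImplicit false

open Polynomial NumberField

namespace Pool.Agent.LRG.H48

/-- The minimal polynomial over the conjugates. -/
theorem spl : A.SplStmt := by
  intro K _ _ θ hθ E _ _ _
  have hint : IsIntegral ℤ (θ : K) := RingOfIntegers.isIntegral_coe θ
  have hmin : minpoly ℚ (θ : K) = (minpoly ℤ θ).map (algebraMap ℤ ℚ) := by
    rw [minpoly.isIntegrallyClosed_eq_field_fractions' ℚ hint, RingOfIntegers.minpoly_coe]
  have hmon : (minpoly ℤ θ).Monic := by
    rw [← RingOfIntegers.minpoly_coe]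
    exact minpoly.monic hint
  have hinj : Function.Injective fun σ : K →+* E => σ (θ : K) := by
    intro σ τ h
    let S : IntermediateField ℚ K :=
      Subfield.toIntermediateField (RingHom.eqLocusField σ τ) fun q => by
        change σ (algebraMap ℚ K q) = τ (algebraMap ℚ K q)
        rw [eq_ratCast, map_ratCast, map_ratCast]
    have hS : (⊤ : IntermediateField ℚ K) ≤ S := by
      rw [← hθ, IntermediateField.adjoin_le_iff, Set.singleton_subset_iff]
      exact h
    ext x
    exact hS (IntermediateField.mem_top (x := x))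
  refine ⟨hinj, ?_⟩
  have hdeg : (minpoly ℤ θ).natDegree = Fintype.card (K →+* E) := by
    rw [NumberField.Embeddings.card, ← IntermediateField.finrank_top' (F := ℚ) (E := K), ← hθ,
      IntermediateField.adjoin.finrank (hint.tower_top (A := ℚ)), hmin, hmon.natDegree_map]
  refine Polynomial.eq_of_monic_of_dvd_of_natDegree_le (monic_prod_X_sub_C _ _)
    (hmon.map _) ?_ ?_
  · refine Finset.prod_dvd_of_coprime (fun σ _ τ _ hne => ?_) fun σ _ => ?_
    · exact Polynomial.pairwise_coprime_X_sub_C hinj hne
    · rw [dvd_iff_isRoot, IsRoot.def, eval_map]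
      have h0 : eval₂ (Int.castRingHom K) (θ : K) (minpoly ℤ θ) = 0 := by
        have := minpoly.aeval ℤ (θ : K)
        rw [RingOfIntegers.minpoly_coe, aeval_def] at this
        exact this
      have h1 := congrArg σ h0
      rw [hom_eval₂, map_zero] at h1
      rw [show Int.castRingHom E = σ.comp (Int.castRingHom K) from Subsingleton.elim _ _]
      exact h1
  · rw [hmon.natDegree_map, hdeg, natDegree_prod_of_monic _ _ fun _ _ => monic_X_sub_C _]
    simp

end Pool.Agent.LRG.H48
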