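import Pool.Agent.LRG.StmtsB3

/-!
# Squad LRG, row TRL
-/

set_option autoImplicit false

namespace Pool.Agent.LRG.H48

open MvPolynomial in
/-- The variables `y` of the tower as polynomials. -/
theorem trl_yv (D : ℕ → ℕ) (m : ℕ) : ∀ k : ℕ, ∃ (δ : ℕ)
    (Y : Fin m → MvPolynomial (Fin (m + k)) ℤ), (∀ i, (Y i).totalDegree ≤ δ) ∧
    ∀ (O : Type) [CommRing O] (x : Fin (m + k) → O) (i : Fin m), aeval x (Y i) = yv D k x i
  | 0 => ⟨1, fun i => X i, fun i => by
      rw [totalDegree_X], fun O _ x i => by
      rw [aeval_X]; rfl⟩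
  | k + 1 => by
      obtain ⟨δ, Y, hY, hv⟩ := trl_yv D m k
      refine ⟨max δ ((D k + 1) ^ m), fun i =>
        (rename (Fin.succ : Fin (m + k) → Fin (m + k + 1)) (Y i) -
          X (0 : Fin (m + k + 1)) ^ (D k + 1) ^ ((i : ℕ) + 1) :
            MvPolynomial (Fin (m + k + 1)) ℤ), fun i => ?_, fun O _ x i => ?_⟩
      · refine (totalDegree_sub _ _).trans (max_le_max ?_ ?_)
        · exact (totalDegree_rename_le _ _).trans (hY i)
        · rw [totalDegree_X_pow]
          exact Nat.pow_le_pow_right (by omega) i.2
      · change (aeval x) (rename (Fin.succ : Fin (m + k) → Fin (m + k + 1)) (Y i) -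
          X (0 : Fin (m + k + 1)) ^ (D k + 1) ^ ((i : ℕ) + 1) :
            MvPolynomial (Fin (m + k + 1)) ℤ) = _
        rw [map_sub, map_pow, aeval_X, aeval_rename]
        have := hv O (Fin.tail (n := m + k) (α := fun _ => O) x) i
        change _ = yv D k (Fin.tail (n := m + k) (α := fun _ => O) x) i -
          x (0 : Fin (m + k + 1)) ^ (D k + 1) ^ ((i : ℕ) + 1)
        rw [← this]
        rfl

open MvPolynomial in
/-- The tower relations as polynomials in the coordinates. -/
theorem trl : TrlStmt := by
  intro D m k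
  induction k with
  | zero =>
    exact ⟨0, fun s => ⟨fun j => j.elim0, fun j => j.elim0, fun O _ x =>
      ⟨fun _ j => j.elim0, fun _ => trivial⟩⟩⟩
  | succ k ih =>
    obtain ⟨δ, hδ⟩ := ih
    obtain ⟨δ', Y, hY, hv⟩ := trl_yv D m k
    refine ⟨max δ ((m + 1) * (D k * max δ' 1)), fun s => ?_⟩
    obtain ⟨q, hq, hR⟩ := hδ s
    let V : Fin (m + 1) → MvPolynomial (Fin (m + k + 1)) ℤ :=
      Fin.cons (α := fun _ => MvPolynomial (Fin (m + k + 1)) ℤ) (X (0 : Fin (m + k + 1)))
        (fun i => rename (Fin.succ : Fin (m + k) → Fin (m + k + 1)) (Y i))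
    have hVd : ∀ i, (V i).totalDegree ≤ max δ' 1 := by
      intro i
      refine Fin.cases ?_ (fun i => ?_) i
      · change (X (0 : Fin (m + k + 1)) : MvPolynomial (Fin (m + k + 1)) ℤ).totalDegree ≤ _
        rw [totalDegree_X]
        exact le_max_right _ _
      · change (rename (Fin.succ : Fin (m + k) → Fin (m + k + 1)) (Y i)).totalDegree ≤ _
        exact (totalDegree_rename_le _ _).trans ((hY i).trans (le_max_left _ _))
    let Q : MvPolynomial (Fin (m + k + 1)) ℤ :=
      gv (fun α => ((s k α : ℤ) : MvPolynomial (Fin (m + k + 1)) ℤ)) V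
    have hQd : Q.totalDegree ≤ (m + 1) * (D k * max δ' 1) := by
      refine totalDegree_finsetSum_le fun α _ => ?_
      refine (totalDegree_mul _ _).trans ?_
      have h1 : (((s k α : ℤ) : MvPolynomial (Fin (m + k + 1)) ℤ)).totalDegree = 0 := by
        rw [show ((s k α : ℤ) : MvPolynomial (Fin (m + k + 1)) ℤ) = C (s k α) from
          (map_intCast (C : ℤ →+* MvPolynomial (Fin (m + k + 1)) ℤ) (s k α)).symm.trans
            (by simp), totalDegree_C]
      rw [h1, zero_add]
      refine (totalDegree_finsetProd _ _).trans ?_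
      refine (Finset.sum_le_card_nsmul _ _ (D k * max δ' 1) fun i _ => ?_).trans ?_
      · refine (totalDegree_pow _ _).trans ?_
        exact Nat.mul_le_mul (Nat.le_of_lt_succ (α i).2) (hVd i)
      · rw [Finset.card_univ, Fintype.card_fin, smul_eq_mul]
    refine ⟨Fin.cons (α := fun _ => MvPolynomial (Fin (m + k + 1)) ℤ) Q
      (fun j => rename (Fin.succ : Fin (m + k) → Fin (m + k + 1)) (q j)), fun j => ?_,
      fun O _ x => ?_⟩
    · refine Fin.cases ?_ (fun j => ?_) j
      · exact hQd.trans (le_max_right _ _)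
      · change (rename (Fin.succ : Fin (m + k) → Fin (m + k + 1)) (q j)).totalDegree ≤ _
        exact (totalDegree_rename_le _ _).trans ((hq j).trans (le_max_left _ _))
    · have hval : aeval x Q = gv (fun α => ((s k α : ℤ) : O))
          (Fin.cons (α := fun _ => O) (x (0 : Fin (m + k + 1)))
            (yv D k (Fin.tail (n := m + k) (α := fun _ => O) x))) := by
        have hVv : ∀ i, aeval x (V i) = (Fin.cons (α := fun _ => O) (x (0 : Fin (m + k + 1)))
            (yv D k (Fin.tail (n := m + k) (α := fun _ => O) x)) : Fin (m + 1) → O) i := by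
          intro i
          refine Fin.cases ?_ (fun i => ?_) i
          · change aeval x (X (0 : Fin (m + k + 1)) : MvPolynomial (Fin (m + k + 1)) ℤ) = x 0
            rw [aeval_X]
          · change aeval x (rename (Fin.succ : Fin (m + k) → Fin (m + k + 1)) (Y i)) =
              yv D k (Fin.tail (n := m + k) (α := fun _ => O) x) i
            rw [aeval_rename, ← hv O (Fin.tail (n := m + k) (α := fun _ => O) x) i]
            rfl
        change aeval x (∑ α, ((s k α : ℤ) : MvPolynomial (Fin (m + k + 1)) ℤ) *
          ∏ i, V i ^ (α i : ℕ)) = _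
        rw [map_sum]
        refine Finset.sum_congr rfl fun α _ => ?_
        rw [map_mul, map_intCast, map_prod]
        congr 1
        refine Finset.prod_congr rfl fun i _ => ?_
        rw [map_pow, hVv]
      have hren : ∀ j, aeval x (rename (Fin.succ : Fin (m + k) → Fin (m + k + 1)) (q j)) =
          aeval (Fin.tail (n := m + k) (α := fun _ => O) x) (q j) := by
        intro j
        rw [aeval_rename]
        rfl
      change (Rels D (fun j α => (s j α : O)) k (Fin.tail (n := m + k) (α := fun _ => O) x) ∧
        gv (fun α => ((s k α : ℤ) : O)) (Fin.cons (α := fun _ => O) (x (0 : Fin (m + k + 1)))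
          (yv D k (Fin.tail (n := m + k) (α := fun _ => O) x))) = 0) ↔ _
      rw [hR, ← hval]
      constructor
      · rintro ⟨h1, h2⟩ j
        refine Fin.cases ?_ (fun j => ?_) j
        · exact h2
        · change aeval x (rename (Fin.succ : Fin (m + k) → Fin (m + k + 1)) (q j)) = 0
          rw [hren]
          exact h1 j
      · intro h
        refine ⟨fun j => ?_, h 0⟩
        rw [← hren]
        exact h j.succ

end Pool.Agent.LRG.H48
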