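import Pool.Agent.LRG.StmtsB2

/-!
# Squad LRG, row TRP
-/

set_option autoImplicit false

namespace Pool.Agent.LRG.H48

/-- A power series all of whose monomials have an exponent larger than `M` in `S`. -/
theorem trp_aux (p : ℕ) [Fact p.Prime] {m : ℕ}
    (ϕ : MvPowerSeries (Fin m) ℤ_[p] →ₐ[ℤ_[p]] ℤ_[p]) (v : Fin m → ℤ_[p])
    (hv : ∀ i, ϕ (MvPowerSeries.X i) = p * v i) (M : ℕ) (S : Finset (Fin m)) :
    ∀ h : MvPowerSeries (Fin m) ℤ_[p],
      (∀ α : Fin m →₀ ℕ, (∀ i ∈ S, α i ≤ M) → MvPowerSeries.coeff α h = 0) →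
      (p : ℤ_[p]) ^ M ∣ ϕ h := by
  classical
  induction S using Finset.induction_on with
  | empty =>
    intro h hh
    have : h = 0 := by
      ext α
      rw [hh α (by simp)]
      simp
    rw [this, map_zero]
    exact dvd_zero _
  | insert i S hi ih =>
    intro h hh
    obtain ⟨h', hh'⟩ : ∃ h' : MvPowerSeries (Fin m) ℤ_[p],
        ∀ α, MvPowerSeries.coeff α h' = if α i ≤ M then MvPowerSeries.coeff α h else 0 :=
      ⟨fun α => if α i ≤ M then MvPowerSeries.coeff α h else 0, fun α => rfl⟩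
    have h1 : (MvPowerSeries.X i : MvPowerSeries (Fin m) ℤ_[p]) ^ (M + 1) ∣ h - h' := by
      rw [MvPowerSeries.X_pow_dvd_iff]
      intro α hα
      rw [map_sub, hh', if_pos (by omega), sub_self]
    have h2 : (p : ℤ_[p]) ^ M ∣ ϕ (h - h') := by
      obtain ⟨g, hg⟩ := h1
      rw [hg, map_mul, map_pow, hv, mul_pow, pow_succ]
      exact Dvd.dvd.mul_right (Dvd.dvd.mul_right (Dvd.intro _ rfl) _) _
    have h3 : (p : ℤ_[p]) ^ M ∣ ϕ h' := by
      refine ih h' fun α hα => ?_
      rw [hh']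
      split_ifs with hc
      · refine hh α fun j hj => ?_
        rcases Finset.mem_insert.1 hj with rfl | hj
        · exact hc
        · exact hα j hj
      · rfl
    have h4 := dvd_add h2 h3
    rwa [← map_add, sub_add_cancel] at h4

/-- Truncation of the value of a power series. -/
theorem trp : TrpStmt := by
  classical
  intro p _ m ϕ v hv h M
  let P : MvPolynomial (Fin m) ℤ_[p] :=
    ∑ α : Fin m → Fin (M + 1), MvPolynomial.monomial (fse α) (MvPowerSeries.coeff (fse α) h)
  have hP : ∀ β : Fin m →₀ ℕ, (∀ i, β i ≤ M) → MvPolynomial.coeff β P = MvPowerSeries.coeff β h := by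
    intro β hβ
    have hβ' : fse (fun i => (⟨β i, Nat.lt_succ_of_le (hβ i)⟩ : Fin (M + 1))) = β := by
      ext i
      rfl
    rw [MvPolynomial.coeff_sum]
    rw [Finset.sum_eq_single (fun i => (⟨β i, Nat.lt_succ_of_le (hβ i)⟩ : Fin (M + 1)))]
    · rw [hβ', MvPolynomial.coeff_monomial, if_pos rfl]
    · intro α _ hα
      rw [MvPolynomial.coeff_monomial, if_neg]
      rintro rfl
      apply hα
      funext i
      apply Fin.ext
      rfl
    · intro hc
      exact absurd (Finset.mem_univ _) hc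
  have h1 : (p : ℤ_[p]) ^ M ∣ ϕ (h - (P : MvPowerSeries (Fin m) ℤ_[p])) := by
    refine trp_aux p ϕ v hv M Finset.univ _ fun α hα => ?_
    rw [map_sub, MvPolynomial.coeff_coe, hP α fun i => hα i (Finset.mem_univ i), sub_self]
  have h2 : ϕ (P : MvPowerSeries (Fin m) ℤ_[p]) =
      MvPolynomial.aeval (fun i => (p : ℤ_[p]) * v i) P := by
    have h3 : ϕ.comp (MvPolynomial.coeToMvPowerSeries.algHom ℤ_[p]) =
        MvPolynomial.aeval (fun i => (p : ℤ_[p]) * v i) := by
      apply MvPolynomial.algHom_ext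
      intro i
      simp [hv]
    rw [← h3]
    simp
  rw [map_sub, h2] at h1
  have h4 : MvPolynomial.aeval (fun i => (p : ℤ_[p]) * v i) P =
      gv (fun α : Fin m → Fin (M + 1) =>
        MvPowerSeries.coeff (fse α) h * (p : ℤ_[p]) ^ (∑ i, (α i : ℕ))) v := by
    unfold gv
    rw [map_sum]
    refine Finset.sum_congr rfl fun α _ => ?_
    rw [MvPolynomial.aeval_monomial, Finsupp.prod_fintype _ _ (fun i => pow_zero _)]
    have : ∀ i, (fse α) i = (α i : ℕ) := fun i => rfl
    simp only [this, mul_pow, Finset.prod_mul_distrib, Finset.prod_pow_eq_pow_sum]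
    rw [Algebra.algebraMap_self, RingHom.id_apply]
    ring
  rwa [h4] at h1

end Pool.Agent.LRG.H48
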