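import Pool.Agent.LRG.StmtsK

/-!
# Squad LRG, row LGV
-/

set_option autoImplicit false

open Polynomial

namespace Pool.Agent.LRG.H48

/-- The derivative of `l i (x i j)`. -/
theorem lgv (hchm : K.ChmStmt) (hlgd : LUB.LgdStmt) : K.LgvStmt := by
  intro p _ n r z₀ e ξ Ω _ _ _ D x hA hinj hne y hy M w b l hM hX hl i j
  have hn : 0 < n := lt_of_le_of_lt (Nat.zero_le _) j.2
  have hF : (chiI e y i).Monic := hchm.2 _ n (e i) _ hn
  have hFm : (chiI e y i).map (algebraMap (PowerSeries ℤ_[p]) Ω) = ∏ j, (X - C (x i j)) := by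
    rw [← hA.roots i]
    unfold chiI
    rw [hchm.1]
    congr 1
    funext k
    rw [hy, map_add, map_mul, map_pow, map_natCast, map_intCast]
    rfl
  have hroot : aeval (x i j) (chiI e y i) = 0 := by
    rw [aeval_def, ← eval_map, hFm, eval_prod]
    exact Finset.prod_eq_zero (Finset.mem_univ j) (by simp)
  have hder : aeval (x i j) (derivative (chiI e y i)) ≠ 0 := by
    rw [aeval_def, ← eval_map, ← derivative_map, hFm, derivative_prod_finset, eval_finsetSum,
      Finset.sum_eq_single j]
    · rw [eval_mul, eval_prod]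
      refine mul_ne_zero (Finset.prod_ne_zero_iff.2 fun k hk => ?_) (by simp)
      rw [eval_sub, eval_X, eval_C]
      exact sub_ne_zero.2 fun h => (Finset.mem_erase.1 hk).1 (hinj i h).symm
    · intro k _ hk
      rw [eval_mul, eval_prod, Finset.prod_eq_zero (Finset.mem_erase.2 ⟨Ne.symm hk, Finset.mem_univ j⟩)
        (by simp), zero_mul]
    · intro h
      exact absurd (Finset.mem_univ j) h
  have hpow : x i j ^ M = 1 + (p : Ω) ^ 2 * aeval (x i j) (w i) := by
    have h := congrArg (aeval (x i j)) (hX i)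
    rw [map_pow, aeval_X, map_add, map_add, map_one, map_mul, map_mul, hroot, zero_mul, add_zero,
      aeval_C, map_pow, map_natCast] at h
    exact h
  have h1 := hlgd p (chiI e y i) (w i) (l i) hF (hl i) Ω D hA.der (x i j) hroot hder
  have h2 : D (x i j ^ M) = (p : Ω) ^ 2 * D (aeval (x i j) (w i)) := by
    have hp : D ((p : Ω) ^ 2) = 0 := by
      rw [← Nat.cast_pow]
      exact D.map_natCast _
    rw [hpow, map_add, Derivation.map_one_eq_zero, zero_add, Derivation.leibniz, hp, smul_zero,
      add_zero, smul_eq_mul]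
  have h3 : D (x i j ^ M) = (M : Ω) * (x i j ^ (M - 1) * D (x i j)) := by
    rw [Derivation.leibniz_pow, nsmul_eq_mul, smul_eq_mul]
  have hx0 : x i j ≠ 0 := hne i j
  rw [← hpow, ← h2, h3] at h1
  have h4 : x i j ^ M = x i j ^ (M - 1) * x i j := by
    rw [← pow_succ]
    congr 1
    omega
  rw [h4] at h1
  have h5 : x i j ^ (M - 1) ≠ 0 := pow_ne_zero _ hx0
  rw [← mul_div_assoc, eq_div_iff hx0]
  apply mul_left_cancel₀ h5
  linear_combination h1

end Pool.Agent.LRG.H48
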